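import Pool.Agent.Helper1.TE.Goals

/-!
# TE-GD: assembly of the numeric gadget
-/

namespace Pool.Agent.Helper69.TE

open Pool.Agent.Helper65.LinSpace (dig tab tab_lt dig_lt)
open Pool.Agent.Helper1.TE

theorem addm_lt {m L R : ℕ} (hP : 0 < L + R) (X y : ℕ) :
    addm m L R X y < (L + R) ^ (m + 2) := by
  unfold addm
  apply tab_lt
  intro i _
  split_ifs
  · exact Nat.mod_lt _ hP
  · exact dig_lt hP _ _

theorem shX_lt {c : ℕ → ℕ → ℕ} {m L R : ℕ} (hP : 0 < L + R) (p X : ℕ) :
    shX c m L R p X < (L + R) ^ (m + 2) := by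
  unfold shX
  apply tab_lt
  intro i _
  exact Nat.mod_lt _ hP

theorem gGD : GoalGD := by
  intro hA hC c m L R K hc
  have hP : 0 < L + R := by have := hc.hL; omega
  have hR : 0 < R := hc.hR
  refine ⟨?_, ?_, ?_, hA c m L R K hc, hC c m L R K hc, ?_, ?_, ?_, ?_⟩
  · intro p _ z _
    exact addm_lt hP _ _
  · intro p _ z _
    exact shX_lt hP _ _
  · intro p _ z z' _ h
    have h' : (if wN c m L R p (ushX c m L R p z.1) < R then
      some (addm m L R (ushX c m L R p z.1) (L + R - R * (z.2 % ((L + R) / R + 1))),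
        z.2 / ((L + R) / R + 1)) else none) = some z' := h
    split_ifs at h' with h1
    rw [Option.some.injEq] at h'
    subst h'
    exact addm_lt hP _ _
  · exact Nat.succ_le_succ (Nat.zero_le _)
  · intro p _ z _
    change ((L + R) / R + 1) * z.2 + wN c m L R p z.1 / R < ((L + R) / R + 1) * (z.2 + 1)
    have hw : wN c m L R p z.1 < L + R := Nat.mod_lt _ hP
    have h1 : wN c m L R p z.1 / R ≤ (L + R) / R := Nat.div_le_div_right hw.le
    rw [Nat.mul_add]
    omega
  · intro p z
    rfl
  · intro p z z' h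
    have h' : (if wN c m L R p (ushX c m L R p z.1) < R then
      some (addm m L R (ushX c m L R p z.1) (L + R - R * (z.2 % ((L + R) / R + 1))),
        z.2 / ((L + R) / R + 1)) else none) = some z' := h
    split_ifs at h' with h1
    rw [Option.some.injEq] at h'
    subst h'
    exact Nat.div_le_self _ _

end Pool.Agent.Helper69.TE
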